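import Mathlib

set_option autoImplicit false

open scoped commutatorElement

namespace Pool.Agent.Results.MP_437e5a_co.DualPartition

/-- `L` is representable by partitions of `A`: there is an injective map from `L` to the lattice of
equivalence relations (partitions) on `A`, ordered by refinement, that preserves binary meets and
joins. -/
def Representable (L : Type) [Lattice L] (A : Type) : Prop :=
  ∃ f : L → Setoid A, Function.Injective f ∧ (∀ x y, f (x ⊓ y) = f x ⊓ f y) ∧
    (∀ x y, f (x ⊔ y) = f x ⊔ f y)

/-- The Whitman number of a finite lattice `L`: the least cardinality of a finite set `A` such that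
`L` is representable by partitions of `A`. -/
noncomputable def whitmanNumber (L : Type) [Lattice L] : ℕ :=
  sInf {k : ℕ | ∃ (A : Type) (_ : Fintype A), Fintype.card A = k ∧ Representable L A}

section General

variable {ι G : Type} [Group G]

/-- The subgroup of tuples that are constant on the blocks of `π`. -/
def V (π : Setoid ι) : Subgroup (ι → G) where
  carrier := {x | ∀ i j, π i j → x i = x j}
  one_mem' := fun _ _ _ => rfl
  mul_mem' := fun {x y} hx hy i j h => by
    simp only [Pi.mul_apply]
    rw [hx i j h, hy i j h]
  inv_mem' := fun {x} hx i j h => by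
    simp only [Pi.inv_apply]
    rw [hx i j h]

theorem mem_V {π : Setoid ι} {x : ι → G} : x ∈ V π ↔ ∀ i j, π i j → x i = x j := Iff.rfl

theorem V_anti {π σ : Setoid ι} (h : π ≤ σ) : (V σ : Subgroup (ι → G)) ≤ V π := by
  intro x hx i j hij
  exact hx i j (h hij)

theorem V_sup (π σ : Setoid ι) : (V (π ⊔ σ) : Subgroup (ι → G)) = V π ⊓ V σ := by
  apply le_antisymm
  · exact le_inf (V_anti le_sup_left) (V_anti le_sup_right)
  · rintro x ⟨h1, h2⟩
    have h : π ⊔ σ ≤ Setoid.ker x := by
      apply sup_le
      · intro i j hij; exact h1 i j hij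
      · intro i j hij; exact h2 i j hij
    intro i j hij
    exact h hij

open Classical in
/-- The tuple equal to `g` on the block of `i` and trivial elsewhere. -/
noncomputable def blk (π : Setoid ι) (i : ι) (g : G) : ι → G := fun j => if π i j then g else 1

theorem blk_mem (π : Setoid ι) (i : ι) (g : G) : blk π i g ∈ (V π : Subgroup (ι → G)) := by
  intro j k hjk
  unfold blk
  by_cases h : π i j
  · rw [if_pos h, if_pos (π.trans' h hjk)]
  · rw [if_neg h, if_neg (fun h' => h (π.trans' h' (π.symm' hjk)))]

theorem blk_mul (π : Setoid ι) (i : ι) (g h : G) : blk π i (g * h) = blk π i g * blk π i h := by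
  funext j
  simp only [blk, Pi.mul_apply]
  split_ifs <;> simp

theorem blk_inv (π : Setoid ι) (i : ι) (g : G) : blk π i g⁻¹ = (blk π i g)⁻¹ := by
  funext j
  simp only [blk, Pi.inv_apply]
  split_ifs <;> simp

theorem blk_one (π : Setoid ι) (i : ι) : blk π i (1 : G) = 1 := by
  funext j
  simp only [blk, Pi.one_apply]
  split_ifs <;> rfl

open Classical in
/-- Elements of `V τ` are products of block elements. -/
theorem V_le_of_blk [Fintype ι] (τ : Setoid ι) (K : Subgroup (ι → G))
    (h : ∀ i g, blk τ i g ∈ K) : V τ ≤ K := by
  -- induction on the number of nontrivial coordinates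
  have key : ∀ n : ℕ, ∀ x : ι → G, x ∈ V τ → (Finset.univ.filter (fun i => x i ≠ 1)).card ≤ n →
      x ∈ K := by
    intro n
    induction n with
    | zero =>
      intro x _ hc
      have : x = 1 := by
        funext i
        by_contra hi
        have h1 : i ∈ Finset.univ.filter (fun i => x i ≠ 1) := by simpa using hi
        rw [Finset.card_eq_zero.1 (Nat.le_zero.1 hc)] at h1
        simp at h1
      rw [this]
      exact K.one_mem
    | succ n ih =>
      intro x hx hc
      by_cases hall : ∀ i, x i = 1
      · have : x = 1 := funext hall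
        rw [this]; exact K.one_mem
      · push Not at hall
        obtain ⟨i, hi⟩ := hall
        have hy : (blk τ i (x i))⁻¹ * x ∈ V τ :=
          (V τ).mul_mem ((V τ).inv_mem (blk_mem τ i (x i))) hx
        have hsub : Finset.univ.filter (fun j => ((blk τ i (x i))⁻¹ * x) j ≠ 1) ⊂
            Finset.univ.filter (fun j => x j ≠ 1) := by
          rw [Finset.ssubset_iff_of_subset]
          · refine ⟨i, by simpa using hi, ?_⟩
            rw [Finset.mem_filter, not_and, not_not]
            intro _
            simp only [Pi.mul_apply, Pi.inv_apply, blk]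
            rw [if_pos (τ.refl' i), inv_mul_cancel]
          · intro j hj
            rw [Finset.mem_filter] at hj ⊢
            refine ⟨Finset.mem_univ _, ?_⟩
            intro hj1
            apply hj.2
            simp only [Pi.mul_apply, Pi.inv_apply, blk]
            by_cases hij : τ i j
            · rw [if_pos hij, hx i j hij, hj1, inv_mul_cancel]
            · rw [if_neg hij, hj1, inv_one, one_mul]
        have hlt := Finset.card_lt_card hsub
        have h1 := ih _ hy (by omega)
        have h2 := K.mul_mem (h i (x i)) h1
        rwa [mul_inv_cancel_left] at h2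
  intro x hx
  exact key _ x hx le_rfl

theorem V_inf [Fintype ι] (hG : commutator G = ⊤) (π σ : Setoid ι) :
    (V (π ⊓ σ) : Subgroup (ι → G)) = V π ⊔ V σ := by
  apply le_antisymm
  · apply V_le_of_blk
    intro i
    -- the set of `g` with `blk (π ⊓ σ) i g ∈ V π ⊔ V σ` is a subgroup containing all commutators
    let S : Subgroup G :=
      { carrier := {g | blk (π ⊓ σ) i g ∈ V π ⊔ V σ}
        one_mem' := by
          change blk (π ⊓ σ) i 1 ∈ V π ⊔ V σ
          rw [blk_one]; exact Subgroup.one_mem _
        mul_mem' := by
          intro a b ha hb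
          change blk (π ⊓ σ) i (a * b) ∈ V π ⊔ V σ
          rw [blk_mul]; exact Subgroup.mul_mem _ ha hb
        inv_mem' := by
          intro a ha
          change blk (π ⊓ σ) i a⁻¹ ∈ V π ⊔ V σ
          rw [blk_inv]; exact Subgroup.inv_mem _ ha }
    have hS : (⊤ : Subgroup G) ≤ S := by
      rw [← hG, commutator_def, Subgroup.commutator_le]
      intro a _ b _
      change blk (π ⊓ σ) i ⁅a, b⁆ ∈ V π ⊔ V σ
      have h1 : blk (π ⊓ σ) i ⁅a, b⁆ = ⁅blk π i a, blk σ i b⁆ := by
        funext j
        have h3 : (π ⊓ σ) i j ↔ π i j ∧ σ i j := Setoid.inf_iff_and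
        simp only [blk, commutatorElement_def, Pi.mul_apply, Pi.inv_apply]
        by_cases h1 : π i j <;> by_cases h2 : σ i j <;> simp [h1, h2, h3]
      rw [h1, commutatorElement_def]
      have ha : blk π i a ∈ (V π ⊔ V σ : Subgroup (ι → G)) :=
        (le_sup_left : V π ≤ V π ⊔ V σ) (blk_mem π i a)
      have hb : blk σ i b ∈ (V π ⊔ V σ : Subgroup (ι → G)) :=
        (le_sup_right : V σ ≤ V π ⊔ V σ) (blk_mem σ i b)
      exact Subgroup.mul_mem _ (Subgroup.mul_mem _ (Subgroup.mul_mem _ ha hb)
        (Subgroup.inv_mem _ ha)) (Subgroup.inv_mem _ hb)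
    intro g
    exact hS (Subgroup.mem_top g)
  · exact sup_le (V_anti inf_le_left) (V_anti inf_le_right)

theorem V_injective [Nontrivial G] : Function.Injective (V : Setoid ι → Subgroup (ι → G)) := by
  intro π σ h
  obtain ⟨g, hg⟩ := exists_ne (1 : G)
  have key : ∀ π σ : Setoid ι, (V π : Subgroup (ι → G)) = V σ → σ ≤ π := by
    intro π σ h i j hij
    have h1 : blk π i g ∈ (V σ : Subgroup (ι → G)) := h ▸ blk_mem π i g
    have h2 := h1 i j hij
    unfold blk at h2
    rw [if_pos (π.refl' i)] at h2
    by_contra hn
    rw [if_neg hn] at h2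
    exact hg h2
  exact le_antisymm (key σ π h.symm) (key π σ h)

end General

section Cosets

variable {H : Type} [Group H]

theorem leftRel_inf (K L : Subgroup H) :
    QuotientGroup.leftRel (K ⊓ L) = QuotientGroup.leftRel K ⊓ QuotientGroup.leftRel L := by
  ext x y
  rw [Setoid.inf_iff_and, QuotientGroup.leftRel_apply, QuotientGroup.leftRel_apply,
    QuotientGroup.leftRel_apply, Subgroup.mem_inf]

theorem leftRel_mono {K L : Subgroup H} (h : K ≤ L) :
    QuotientGroup.leftRel K ≤ QuotientGroup.leftRel L := by
  intro x y hxy
  rw [QuotientGroup.leftRel_apply] at hxy ⊢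
  exact h hxy

theorem leftRel_sup (K L : Subgroup H) :
    QuotientGroup.leftRel (K ⊔ L) = QuotientGroup.leftRel K ⊔ QuotientGroup.leftRel L := by
  apply le_antisymm
  · let s := QuotientGroup.leftRel K ⊔ QuotientGroup.leftRel L
    let S : Subgroup H :=
      { carrier := {k | ∀ x, s x (x * k)}
        one_mem' := by intro x; rw [mul_one]
        mul_mem' := by
          intro a b ha hb x
          have h1 := ha x
          have h2 := hb (x * a)
          rw [mul_assoc] at h2
          exact s.trans' h1 h2
        inv_mem' := by
          intro a ha x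
          have h1 := ha (x * a⁻¹)
          rw [inv_mul_cancel_right] at h1
          exact s.symm' h1 }
    have hK : K ≤ S := by
      intro k hk x
      apply (le_sup_left : QuotientGroup.leftRel K ≤ s)
      rw [QuotientGroup.leftRel_apply, inv_mul_cancel_left]
      exact hk
    have hL : L ≤ S := by
      intro k hk x
      apply (le_sup_right : QuotientGroup.leftRel L ≤ s)
      rw [QuotientGroup.leftRel_apply, inv_mul_cancel_left]
      exact hk
    intro x y hxy
    rw [QuotientGroup.leftRel_apply] at hxy
    have h1 := (sup_le hK hL) hxy x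
    rwa [mul_inv_cancel_left] at h1
  · exact sup_le (leftRel_mono le_sup_left) (leftRel_mono le_sup_right)

theorem leftRel_injective :
    Function.Injective (QuotientGroup.leftRel : Subgroup H → Setoid H) := by
  intro K L h
  ext x
  have h1 : QuotientGroup.leftRel K 1 x ↔ QuotientGroup.leftRel L 1 x := by rw [h]
  rw [QuotientGroup.leftRel_apply, QuotientGroup.leftRel_apply] at h1
  simpa using h1

end Cosets

/-- For a perfect nontrivial finite group `G`, the dual of the lattice of partitions of `ι` is
representable by partitions of the set of left cosets of the diagonal in `ι → G`. -/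
theorem representable_dual {ι G : Type} [Fintype ι] [Group G] [Nontrivial G]
    (hG : commutator G = ⊤) :
    Representable (Setoid ι)ᵒᵈ ((ι → G) ⧸ (V (⊤ : Setoid ι) : Subgroup (ι → G))) := by
  let K0 : Subgroup (ι → G) := V (⊤ : Setoid ι)
  have hle : ∀ π : Setoid ι, QuotientGroup.leftRel K0 ≤ QuotientGroup.leftRel (V π) :=
    fun π => leftRel_mono (V_anti le_top)
  let e := Setoid.correspondence (QuotientGroup.leftRel K0)
  let F : Setoid ι → {s : Setoid (ι → G) // QuotientGroup.leftRel K0 ≤ s} :=
    fun π => ⟨QuotientGroup.leftRel (V π), hle π⟩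
  refine ⟨fun π => e (F (OrderDual.ofDual π)), ?_, ?_, ?_⟩
  · intro π σ h
    have h1 := e.injective h
    have h2 : QuotientGroup.leftRel (V (OrderDual.ofDual π) : Subgroup (ι → G)) =
        QuotientGroup.leftRel (V (OrderDual.ofDual σ)) := congrArg Subtype.val h1
    exact V_injective (leftRel_injective h2)
  · intro π σ
    have h1 : F (OrderDual.ofDual (π ⊓ σ)) =
        ⟨(F (OrderDual.ofDual π)).1 ⊓ (F (OrderDual.ofDual σ)).1,
          le_inf (hle _) (hle _)⟩ := by
      apply Subtype.ext
      change QuotientGroup.leftRel (V (OrderDual.ofDual π ⊔ OrderDual.ofDual σ)) = _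
      rw [V_sup, leftRel_inf]
    apply le_antisymm
    · apply le_inf
      · apply e.monotone
        rw [h1]
        exact Subtype.mk_le_mk.2 inf_le_left
      · apply e.monotone
        rw [h1]
        exact Subtype.mk_le_mk.2 inf_le_right
    · rw [← e.symm_apply_le]
      rw [h1]
      apply Subtype.mk_le_mk.2
      apply le_inf
      · have : e.symm (e (F (OrderDual.ofDual π)) ⊓ e (F (OrderDual.ofDual σ))) ≤
            F (OrderDual.ofDual π) := by
          rw [e.symm_apply_le]; exact inf_le_left
        exact this
      · have : e.symm (e (F (OrderDual.ofDual π)) ⊓ e (F (OrderDual.ofDual σ))) ≤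
            F (OrderDual.ofDual σ) := by
          rw [e.symm_apply_le]; exact inf_le_right
        exact this
  · intro π σ
    have h1 : F (OrderDual.ofDual (π ⊔ σ)) =
        ⟨(F (OrderDual.ofDual π)).1 ⊔ (F (OrderDual.ofDual σ)).1,
          le_sup_of_le_left (hle _)⟩ := by
      apply Subtype.ext
      change QuotientGroup.leftRel (V (OrderDual.ofDual π ⊓ OrderDual.ofDual σ)) = _
      rw [V_inf hG, leftRel_sup]
    apply le_antisymm
    · rw [← e.le_symm_apply]
      rw [h1]
      apply Subtype.mk_le_mk.2
      apply sup_le
      · have : F (OrderDual.ofDual π) ≤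
            e.symm (e (F (OrderDual.ofDual π)) ⊔ e (F (OrderDual.ofDual σ))) := by
          rw [e.le_symm_apply]; exact le_sup_left
        exact this
      · have : F (OrderDual.ofDual σ) ≤
            e.symm (e (F (OrderDual.ofDual π)) ⊔ e (F (OrderDual.ofDual σ))) := by
          rw [e.le_symm_apply]; exact le_sup_right
        exact this
    · apply sup_le
      · apply e.monotone
        rw [h1]
        exact Subtype.mk_le_mk.2 le_sup_left
      · apply e.monotone
        rw [h1]
        exact Subtype.mk_le_mk.2 le_sup_right

theorem commutator_A5 : commutator (alternatingGroup (Fin 5)) = ⊤ := by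
  have : IsSimpleGroup (alternatingGroup (Fin 5)) := alternatingGroup.isSimpleGroup (by simp)
  rcases IsSimpleGroup.eq_bot_or_eq_top_of_normal (commutator (alternatingGroup (Fin 5)))
    inferInstance with h | h
  · exfalso
    rw [commutator_eq_bot_iff_center_eq_top] at h
    have h2 : Subgroup.center (alternatingGroup (Fin 5)) = ⊥ :=
      alternatingGroup.center_eq_bot (by simp)
    rw [h] at h2
    exact absurd h2 top_ne_bot
  · exact h

/-- The dual of the lattice of partitions of an `(n+1)`-element set is representable by partitions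
of a set with `60 ^ n` elements; in particular the Whitman number of the dual of the partition
lattice on four points is at most `60 ^ 3 = 216000`, hence at most `2 ^ 1000`. -/
theorem result :
    (∀ n : ℕ, ∃ (A : Type) (_ : Fintype A), Fintype.card A = 60 ^ n ∧
      Representable (Setoid (Fin (n + 1)))ᵒᵈ A) ∧
    whitmanNumber (Setoid (Fin 4))ᵒᵈ ≤ 60 ^ 3 ∧ whitmanNumber (Setoid (Fin 4))ᵒᵈ ≤ 2 ^ 1000 := by
  have h1 : ∀ n : ℕ, ∃ (A : Type) (_ : Fintype A), Fintype.card A = 60 ^ n ∧
      Representable (Setoid (Fin (n + 1)))ᵒᵈ A := by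
    intro n
    let G := alternatingGroup (Fin 5)
    have hcardG : Nat.card G = 60 := by
      rw [nat_card_alternatingGroup]
      simp [Nat.factorial]
    let K0 : Subgroup (Fin (n + 1) → G) := V (⊤ : Setoid (Fin (n + 1)))
    let A := (Fin (n + 1) → G) ⧸ K0
    have hfin : Finite A := inferInstance
    refine ⟨A, Fintype.ofFinite A, ?_, representable_dual commutator_A5⟩
    have hK0 : Nat.card K0 = 60 := by
      rw [← hcardG]
      apply Nat.card_congr
      exact
        { toFun := fun x => x.1 0
          invFun := fun g => ⟨fun _ => g, fun _ _ _ => rfl⟩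
          left_inv := fun x => by
            apply Subtype.ext
            funext i
            exact x.2 0 i trivial
          right_inv := fun g => rfl }
    have h2 := Subgroup.card_eq_card_quotient_mul_card_subgroup K0
    rw [hK0, Nat.card_fun, hcardG, Nat.card_fin, pow_succ] at h2
    have h3 : Nat.card A = 60 ^ n := (Nat.eq_of_mul_eq_mul_right (by norm_num) h2).symm
    rw [← h3]
    exact (@Nat.card_eq_fintype_card A (Fintype.ofFinite A)).symm
  have h2 : whitmanNumber (Setoid (Fin 4))ᵒᵈ ≤ 60 ^ 3 := by
    obtain ⟨A, hA, hcard, hrep⟩ := h1 3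
    exact Nat.sInf_le ⟨A, hA, hcard, hrep⟩
  have h3 : (60 : ℕ) ^ 3 ≤ 2 ^ 1000 :=
    le_trans (by norm_num : (60 : ℕ) ^ 3 ≤ 2 ^ 18) (Nat.pow_le_pow_right (by norm_num) (by norm_num))
  exact ⟨h1, h2, h2.trans h3⟩

end Pool.Agent.Results.MP_437e5a_co.DualPartition
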